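import Pool.Agent.P8H59.UT.Main

/-!
# A block of `SL₂(9)` whose decomposition matrix is not unitriangular

`G = SL₂(9)` is a perfect group and `G / Z(G) = PSL₂(9)` is simple. Let `ℓ = 3` and let `B` be the block of
an irreducible principal series representation on which `-1` acts as `-1`. On all members of `Irr(B)` and
`IBr(B)` the element `-1` acts as `-1`. The degrees of such irreducible Brauer characters are `2` or `6`,
and there are no such irreducible ordinary characters of degree `2` or `6` (their degrees are `4`, `8`,
`10`). Hence no ordinary character of `B` remains irreducible modulo `3`, and the decomposition matrix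
cannot be unitriangular.
-/

set_option autoImplicit false

noncomputable section

namespace Pool.Agent.Results.MP_5c3aa2_al.SLTwoNine

open Pool.Agent.P8H59.UT

/-- the field with `9` elements -/
abbrev F9 : Type := GaloisField 3 2

instance : Fintype F9 := Fintype.ofFinite F9
instance : DecidableEq F9 := Classical.decEq F9

lemma card_F9 : Fintype.card F9 = 9 := by
  rw [← Nat.card_eq_fintype_card, GaloisField.card 3 2 (by norm_num)]
  norm_num

/-- The group `SL₂(9)` is a finite perfect group with simple quotient `PSL₂(9)` by its centre, and (for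
every choice of the maximal ideal `M ∋ 3` of the ring of algebraic integers; such ideals exist) it has a
`3`-block whose decomposition matrix is not unitriangular. -/
theorem result :
    commutator (Matrix.SpecialLinearGroup (Fin 2) F9) = ⊤ ∧
    IsSimpleGroup (Matrix.SpecialLinearGroup (Fin 2) F9 ⧸
      Subgroup.center (Matrix.SpecialLinearGroup (Fin 2) F9)) ∧
    (∃ M : Ideal AI, M.IsMaximal ∧ (3 : AI) ∈ M) ∧
    ∀ (M : Ideal AI) [M.IsMaximal], (3 : AI) ∈ M →
      ∃ X₀ : IrrRep (Matrix.SpecialLinearGroup (Fin 2) F9) ℂ, ¬ Unitriangular M 3 X₀ := by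
  have hcard : 4 ≤ Nat.card F9 := by
    rw [Nat.card_eq_fintype_card, card_F9]; norm_num
  obtain ⟨a0, -, hp, ha4⟩ := exists_gen card_F9
  refine ⟨?_, Matrix.ProjectiveSpecialLinearGroup.rank_two_simple hcard, ?_, ?_⟩
  · refine Matrix.SL2.commutator_eq_top (a := (a0 : F9)) a0.ne_zero ?_
    intro h
    have := hp.dvd_of_pow_eq_one 2 h
    omega
  · obtain ⟨M, hM, h3⟩ := exists_maximal 3 (by norm_num)
    exact ⟨M, hM, by exact_mod_cast h3⟩
  · intro M _ h3
    exact main M card_F9 h3

end Pool.Agent.Results.MP_5c3aa2_al.SLTwoNine
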